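import Mathlib
import Pool.Agent.H28.UAlg3

open MeasureTheory Filter Topology
open scoped ENNReal NNReal ComplexConjugate

noncomputable section

namespace Pool.Agent.Results.MP_ca8afd_an.NotHinf

open Pool.Agent.H28.UAlg

/-- `A_σ`: the closure of `A` in `L^∞(σ)` for the topology `σ(L^∞, L¹)`. -/
def WkA {S : Type} [TopologicalSpace S] [MeasurableSpace S] (A : Subalgebra ℂ C(S, ℂ))
    (σ : FiniteMeasure S) : Set (Lp ℂ ⊤ (σ : Measure S)) :=
  {h | ∀ (r : ℕ) (k : Fin r → S → ℂ), (∀ j, Integrable (k j) (σ : Measure S)) →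
    ∀ ε : ℝ, 0 < ε → ∃ f ∈ A, ∀ j, ‖∫ s, (h s - f s) * k j s ∂(σ : Measure S)‖ < ε}

/-- `H^∞(𝔻)`: bounded holomorphic functions on the open unit disk. -/
def Hinf : Set (Metric.ball (0 : ℂ) 1 → ℂ) :=
  {F | (∃ C : ℝ, ∀ z, ‖F z‖ ≤ C) ∧
    ∃ G : ℂ → ℂ, DifferentiableOn ℂ G (Metric.ball 0 1) ∧ ∀ z : Metric.ball (0 : ℂ) 1, F z = G z}

/-- A set `B` of classes of functions (`ev a` is a representative of `a`), with the `σ`-a.e.
pointwise operations, is isomorphic to `H^∞(𝔻)` as a complex algebra. -/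
def IsoHinf {L S : Type} [MeasurableSpace S] (σ : Measure S) (ev : L → S → ℂ) (B : Set L) :
    Prop :=
  ∃ Φ : L → Metric.ball (0 : ℂ) 1 → ℂ, Set.BijOn Φ B Hinf ∧
    (∀ a ∈ B, ∀ b ∈ B, ∀ c ∈ B, (∀ᵐ s ∂σ, ev c s = ev a s + ev b s) →
      ∀ z, Φ c z = Φ a z + Φ b z) ∧
    (∀ t : ℂ, ∀ a ∈ B, ∀ c ∈ B, (∀ᵐ s ∂σ, ev c s = t * ev a s) → ∀ z, Φ c z = t * Φ a z) ∧
    ∀ a ∈ B, ∀ b ∈ B, ∀ c ∈ B, (∀ᵐ s ∂σ, ev c s = ev a s * ev b s) →
      ∀ z, Φ c z = Φ a z * Φ b z

/-- (H1): every real-valued element of `A_σ` is constant a.e. -/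
def RealConst {S : Type} [TopologicalSpace S] [MeasurableSpace S] (A : Subalgebra ℂ C(S, ℂ))
    (σ : FiniteMeasure S) : Prop :=
  ∀ h ∈ WkA A σ, (∀ᵐ s ∂(σ : Measure S), (h s).im = 0) → ∃ c : ℂ, ∀ᵐ s ∂(σ : Measure S), h s = c

/-- `A_σ ⊆ L^∞(σ)` is isomorphic to `H^∞(𝔻)` as a complex algebra. -/
def WkIso {S : Type} [TopologicalSpace S] [MeasurableSpace S] (A : Subalgebra ℂ C(S, ℂ))
    (σ : FiniteMeasure S) : Prop :=
  IsoHinf (σ : Measure S) (fun h : Lp ℂ ⊤ (σ : Measure S) => (h : S → ℂ)) (WkA A σ)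

lemma Hinf_mul {F G} (hF : F ∈ Hinf) (hG : G ∈ Hinf) : F * G ∈ Hinf := by
  obtain ⟨⟨C, hC⟩, F', h1, h2⟩ := hF
  obtain ⟨⟨C', hC'⟩, G', h1', h2'⟩ := hG
  refine ⟨⟨C * C', fun z => ?_⟩, F' * G', h1.mul h1', fun z => by simp [h2, h2']⟩
  rw [Pi.mul_apply, norm_mul]
  exact mul_le_mul (hC z) (hC' z) (norm_nonneg _) ((norm_nonneg _).trans (hC z))

lemma Hinf_add {F G} (hF : F ∈ Hinf) (hG : G ∈ Hinf) : F + G ∈ Hinf := by
  obtain ⟨⟨C, hC⟩, F', h1, h2⟩ := hF
  obtain ⟨⟨C', hC'⟩, G', h1', h2'⟩ := hG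
  exact ⟨⟨C + C', fun z => (norm_add_le _ _).trans (add_le_add (hC z) (hC' z))⟩, F' + G',
    h1.add h1', fun z => by simp [h2, h2']⟩

lemma Hinf_const (c : ℂ) : (fun _ => c) ∈ Hinf :=
  ⟨⟨‖c‖, fun _ => le_rfl⟩, fun _ => c, differentiableOn_const c, fun _ => rfl⟩

lemma Hinf_sqrt {g} (hg : g ∈ Hinf) (h0 : ∀ z, g z ≠ 0) : ∃ s ∈ Hinf, ∀ z, g z = s z * s z := by
  obtain ⟨⟨C, hC⟩, G, h1, h2⟩ := hg
  have hne : ∀ z ∈ Metric.ball (0 : ℂ) 1, G z ≠ 0 := fun z hz => h2 ⟨z, hz⟩ ▸ h0 ⟨z, hz⟩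
  obtain ⟨L, hL⟩ := ((h1.deriv Metric.isOpen_ball).div h1 hne).isExactOn_ball
  have hLd : DifferentiableOn ℂ L (Metric.ball 0 1) := fun z hz =>
    (hL z hz).differentiableAt.differentiableWithinAt
  obtain ⟨c, hc⟩ := Metric.isOpen_ball.exists_is_const_of_deriv_eq_zero
    (f := fun z => G z * Complex.exp (-L z)) (convex_ball (0 : ℂ) 1).isPreconnected
    (h1.mul hLd.neg.cexp) (fun z hz => by
      have d1 := (h1.differentiableAt (Metric.isOpen_ball.mem_nhds hz)).hasDerivAt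
      have := (d1.fun_mul (hL z hz).fun_neg.cexp).deriv
      rw [this]
      have := hne z hz
      simp only [Pi.div_apply, Pi.zero_apply]
      field_simp
      ring)
  obtain ⟨d, hd⟩ := IsAlgClosed.exists_eq_mul_self c
  have key : ∀ z : Metric.ball (0 : ℂ) 1,
      g z = d * Complex.exp (L z / 2) * (d * Complex.exp (L z / 2)) := by
    intro z
    have e1 : Complex.exp (L z / 2) * Complex.exp (L z / 2) * Complex.exp (-L z) = 1 := by
      rw [← Complex.exp_add, ← Complex.exp_add]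
      ring_nf
      exact Complex.exp_zero
    have := hc z z.2
    rw [h2]
    linear_combination (-G z) * e1 + Complex.exp (L z / 2) * Complex.exp (L z / 2) * this +
      Complex.exp (L z / 2) * Complex.exp (L z / 2) * hd
  refine ⟨fun z => d * Complex.exp (L z / 2), ⟨⟨Real.sqrt C, fun z => ?_⟩,
    fun z => d * Complex.exp (L z / 2), ((hLd.div_const 2).cexp).const_mul d, fun _ => rfl⟩, key⟩
  refine Real.le_sqrt_of_sq_le ?_
  rw [sq, ← norm_mul, ← key]
  exact hC z

lemma Hinf_contra {g} (hg : g ∈ Hinf)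
    (h1 : ∀ F ∈ Hinf, ∃ c : ℂ, ∃ F' ∈ Hinf, ∀ z, F z = c + g z * F' z)
    (h2 : ¬ ∃ F ∈ Hinf, ∀ z, g z * F z = 1) (F : ℕ → Metric.ball (0 : ℂ) 1 → ℂ)
    (hF : ∀ k, F k ∈ Hinf) (hrec : ∀ k z, F k z = g z * F (k + 1) z) : F 0 = 0 := by
  by_cases h0 : ∀ z, g z ≠ 0
  · exfalso
    apply h2
    obtain ⟨s, hs, e⟩ := Hinf_sqrt hg h0
    obtain ⟨c, F', hF', e'⟩ := h1 s hs
    by_cases hc : c = 0
    · refine ⟨F' * F', Hinf_mul hF' hF', fun z => ?_⟩
      have h3 := e' z
      rw [hc, zero_add] at h3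
      refine mul_left_cancel₀ (h0 z) ?_
      rw [Pi.mul_apply]
      linear_combination (-1) * e z - (s z + g z * F' z) * h3
    · refine ⟨(fun _ => (c * c)⁻¹) * ((fun _ => 1) + (fun _ => -1) * F' *
        ((fun _ => 2 * c) + g * F')), Hinf_mul (Hinf_const _) (Hinf_add (Hinf_const _)
        (Hinf_mul (Hinf_mul (Hinf_const _) hF') (Hinf_add (Hinf_const _) (Hinf_mul hg hF')))),
        fun z => ?_⟩
      simp only [Pi.mul_apply, Pi.add_apply]
      have h3 := e z
      rw [e' z] at h3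
      field_simp
      linear_combination h3
  · push Not at h0
    obtain ⟨b, hb⟩ := h0
    obtain ⟨-, G, hG, eG⟩ := hg
    choose H hH eH using fun k => (hF k).2
    have hball := Metric.isOpen_ball.mem_nhds b.2
    have aG := hG.analyticAt hball
    have aH := fun k => (hH k).analyticAt hball
    have hpow : ∀ k, ∀ z : Metric.ball (0 : ℂ) 1, F 0 z = g z ^ k * F k z := by
      intro k z
      induction k with
      | zero => simp
      | succ k ih => rw [ih, hrec k, pow_succ, mul_assoc]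
    have hord : ∀ k : ℕ, (k : ℕ∞) ≤ analyticOrderAt (H 0) b := by
      intro k
      have e1 : H 0 =ᶠ[𝓝 (b : ℂ)] G ^ k * H k := by
        filter_upwards [hball] with z hz
        rw [Pi.mul_apply, Pi.pow_apply, ← eH 0 ⟨z, hz⟩, ← eH k ⟨z, hz⟩, ← eG ⟨z, hz⟩, hpow k]
      rw [analyticOrderAt_congr e1, analyticOrderAt_mul (aG.pow k) (aH k), analyticOrderAt_pow aG]
      have h3 : 1 ≤ analyticOrderAt G b :=
        Order.one_le_iff_ne_zero.2 (aG.analyticOrderAt_ne_zero.2 (eG b ▸ hb))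
      calc (k : ℕ∞) = k • (1 : ℕ∞) := by simp
        _ ≤ k • analyticOrderAt G b := nsmul_le_nsmul_right h3 k
        _ ≤ _ := le_self_add
    have htop := analyticOrderAt_eq_top.1 (ENat.eq_top_iff_forall_ge.2 hord)
    have := ((hH 0).analyticOnNhd Metric.isOpen_ball).eqOn_zero_of_preconnected_of_eventuallyEq_zero
      (convex_ball (0 : ℂ) 1).isPreconnected b.2 htop
    funext z
    rw [eH 0 z]
    exact this z.2

lemma ae_zero_of_cont {X : Type*} [TopologicalSpace X] [CompactSpace X] [MeasurableSpace X]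
    [BorelSpace X] [HasOuterApproxClosed X] {μ : Measure X} {k : X → ℂ} (hk : Integrable k μ)
    (h : ∀ φ : C(X, ℂ), ∫ x, φ x * k x ∂μ = 0) : k =ᵐ[μ] 0 := by
  refine ae_eq_zero_of_forall_setIntegral_isClosed_eq_zero hk fun s hs => ?_
  rw [← integral_indicator hs.measurableSet]
  have := tendsto_integral_of_dominated_convergence (μ := μ)
    (F := fun n x => ((hs.apprSeq n x : ℝ) : ℂ) * k x) (f := s.indicator k) (fun x => ‖k x‖)
    (fun n => (Continuous.aestronglyMeasurable (by fun_prop)).mul hk.1) hk.norm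
    (fun n => Eventually.of_forall fun x => by
      rw [norm_mul, Complex.norm_real, Real.norm_of_nonneg (by positivity)]
      exact mul_le_of_le_one_left (norm_nonneg _) (HasOuterApproxClosed.apprSeq_apply_le_one hs n x))
    (Eventually.of_forall fun x => by
      have h1 := tendsto_pi_nhds.1 (HasOuterApproxClosed.tendsto_apprSeq hs) x
      have h2 := (((Complex.continuous_ofReal.comp NNReal.continuous_coe).tendsto _).comp
        h1).mul_const (k x)
      have e : s.indicator k x =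
          (Complex.ofReal ∘ NNReal.toReal) (s.indicator (fun _ => 1) x) * k x := by
        by_cases hx : x ∈ s <;> simp [hx]
      rw [e]
      exact h2)
  have h0 : ∀ n, ∫ x, ((hs.apprSeq n x : ℝ) : ℂ) * k x ∂μ = 0 := fun n =>
    h ⟨fun x => ((hs.apprSeq n x : ℝ) : ℂ), by fun_prop⟩
  simp only [h0] at this
  exact tendsto_nhds_unique this tendsto_const_nhds

open UnitAddTorus

abbrev X := UnitAddTorus (Fin 2)

def mT : Measure X := Measure.pi fun _ => m

instance : IsProbabilityMeasure mT := by unfold mT; infer_instance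

instance : mT.IsOpenPosMeasure := by unfold mT; infer_instance

lemma mF_norm (γ : Fin 2 → ℤ) (x : X) : ‖mFourier γ x‖ = 1 := by
  simp only [mFourier, fourier_apply, ContinuousMap.coe_mk, norm_prod, Circle.norm_coe,
    Finset.prod_const_one]

lemma mF_mean (γ : Fin 2 → ℤ) (h : γ ≠ 0) : ∫ x, mFourier γ x ∂mT = 0 := by
  obtain ⟨i, hi⟩ := Function.ne_iff.1 h
  have := integral_fintype_prod_eq_prod (μ := fun _ : Fin 2 => m) fun i θ => fourier (γ i) θ
  refine this.trans (Finset.prod_eq_zero (Finset.mem_univ i) (mean_fourier _ hi))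

lemma mF_pow (γ : Fin 2 → ℤ) (n : ℕ) (x : X) : mFourier γ x ^ n = mFourier (n • γ) x := by
  induction n with
  | zero => simp [mFourier_zero]
  | succ n ih => rw [pow_succ, ih, succ_nsmul, mFourier_add]

def gam : ℕ → Fin 2 → ℤ
  | 0 => ![0, 1]
  | k + 1 => ![1, -k]

def e2 : C(X, PD ℕ) :=
  ⟨fun x n => ⟨mFourier (gam n) x, mem_closedBall_zero_iff.2 (mF_norm _ x).le⟩,
    continuous_pi fun n => Continuous.subtype_mk (mFourier (gam n)).continuous _⟩

lemma coord_e2 (n : ℕ) (x : X) : coord n (e2 x) = mFourier (gam n) x := rfl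

lemma e2_inj : Function.Injective e2 := by
  intro x y h
  have h0 : mFourier (gam 0) x = mFourier (gam 0) y := by rw [← coord_e2, h, coord_e2]
  have h1 : mFourier (gam 1) x = mFourier (gam 1) y := by rw [← coord_e2, h, coord_e2]
  have a0 : gam 0 = Pi.single 1 1 := by funext i; fin_cases i <;> rfl
  have a1 : gam 1 = Pi.single 0 1 := by funext i; fin_cases i <;> rfl
  rw [a0, mFourier_single, mFourier_single] at h0
  rw [a1, mFourier_single, mFourier_single] at h1
  funext i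
  fin_cases i
  · exact f1_inj h1
  · exact f1_inj h0

lemma e2_emb : MeasurableEmbedding e2 :=
  (e2.continuous.isClosedEmbedding e2_inj).measurableEmbedding

def sig : FiniteMeasure (PD ℕ) := ⟨mT.map e2, inferInstance⟩

lemma int_sig (F : PD ℕ → ℂ) : ∫ s, F s ∂(sig : Measure (PD ℕ)) = ∫ x, F (e2 x) ∂mT :=
  e2_emb.integral_map F

lemma ae_sig (P : PD ℕ → Prop) : (∀ᵐ s ∂(sig : Measure (PD ℕ)), P s) ↔ ∀ᵐ x ∂mT, P (e2 x) :=
  e2_emb.ae_map_iff

lemma sig_univ : (sig : Measure (PD ℕ)).real Set.univ = 1 := by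
  have := int_sig fun _ => 1
  simpa using this

def Pos (γ : Fin 2 → ℤ) : Prop := 0 < γ 0 ∨ (γ 0 = 0 ∧ 0 ≤ γ 1)

lemma lift_pos (γ : Fin 2 → ℤ) (h : Pos γ) : ∃ f ∈ Alg ℕ, ∀ x, f (e2 x) = mFourier γ x := by
  rcases h with h | ⟨h0, h1⟩
  · obtain ⟨a, ha⟩ : ∃ a : ℕ, γ 0 = a + 1 := ⟨(γ 0 - 1).toNat, by omega⟩
    obtain ⟨b, hb | hb⟩ := Int.eq_nat_or_neg (γ 1)
    · refine ⟨coord 1 ^ (a + 1) * coord 0 ^ b, (Alg ℕ).mul_mem ((Alg ℕ).pow_mem (coord_mem _) _)
        ((Alg ℕ).pow_mem (coord_mem _) _), fun x => ?_⟩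
      simp only [ContinuousMap.mul_apply, ContinuousMap.pow_apply, coord_e2, mF_pow,
        ← mFourier_add]
      congr 2
      funext i
      fin_cases i <;> simp [gam, ha, hb]
    · refine ⟨coord 1 ^ a * coord (b + 1), (Alg ℕ).mul_mem ((Alg ℕ).pow_mem (coord_mem _) _)
        (coord_mem _), fun x => ?_⟩
      simp only [ContinuousMap.mul_apply, ContinuousMap.pow_apply, coord_e2, mF_pow,
        ← mFourier_add]
      congr 2
      funext i
      fin_cases i <;> simp [gam, ha, hb]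
  · obtain ⟨b, hb⟩ := Int.eq_ofNat_of_zero_le h1
    refine ⟨coord 0 ^ b, (Alg ℕ).pow_mem (coord_mem _) _, fun x => ?_⟩
    simp only [ContinuousMap.pow_apply, coord_e2, mF_pow]
    congr 2
    funext i
    fin_cases i <;> simp [gam, h0, hb]

lemma lift_all (γ : Fin 2 → ℤ) (h : γ ≠ 0) : ∃ δ, Pos δ ∧ δ ≠ 0 ∧ (γ = δ ∨ γ = -δ) := by
  by_cases hp : Pos γ
  · exact ⟨γ, hp, h, Or.inl rfl⟩
  · refine ⟨-γ, ?_, neg_ne_zero.2 h, Or.inr (neg_neg γ).symm⟩
    unfold Pos at hp ⊢
    simp only [Pi.neg_apply]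
    omega

lemma annih (δ : Fin 2 → ℤ) (hδ : Pos δ) (h0 : δ ≠ 0) (f : C(PD ℕ, ℂ)) (hf : f ∈ Alg ℕ) :
    ∫ x, f (e2 x) * mFourier δ x ∂mT = 0 := by
  have hcl : IsClosed {f : C(PD ℕ, ℂ) | intL mT (f.comp e2 * mFourier δ) = 0} :=
    isClosed_eq ((intL mT).continuous.comp ((ContinuousMap.continuous_precomp _).mul
      continuous_const)) continuous_const
  refine closure_minimal (s := (H28.UAlg.Poly ℕ : Set C(PD ℕ, ℂ))) (fun g hg => ?_) hcl hf
  have hg' : g ∈ Subalgebra.toSubmodule (Algebra.adjoin ℂ (Set.range (coord (ι := ℕ)))) := hg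
  rw [Algebra.adjoin_eq_span] at hg'
  change intL mT (g.comp e2 * mFourier δ) = 0
  clear hg
  induction hg' using Submodule.span_induction with
  | mem x hx =>
    have : ∃ γ, Pos γ ∧ ∀ y, x (e2 y) = mFourier γ y := by
      induction hx using Submonoid.closure_induction with
      | mem x hx =>
        obtain ⟨n, rfl⟩ := hx
        refine ⟨gam n, ?_, coord_e2 n⟩
        cases n <;> simp [Pos, gam]
      | one => exact ⟨0, Or.inr ⟨rfl, le_rfl⟩, fun y => by simp [mFourier_zero]⟩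
      | mul x y _ _ hx hy =>
        obtain ⟨γ, h1, h2⟩ := hx
        obtain ⟨γ', h1', h2'⟩ := hy
        refine ⟨γ + γ', ?_, fun y => by rw [ContinuousMap.mul_apply, h2, h2', mFourier_add]⟩
        unfold Pos at *
        simp only [Pi.add_apply]
        omega
    obtain ⟨γ, h1, h2⟩ := this
    rw [intL_apply]
    simp only [ContinuousMap.mul_apply, ContinuousMap.comp_apply, h2, ← mFourier_add]
    refine mF_mean _ fun h => h0 ?_
    have a0 := congrFun h 0
    have a1 := congrFun h 1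
    unfold Pos at *
    simp only [Pi.add_apply, Pi.zero_apply] at a0 a1
    funext i
    fin_cases i
    · change δ 0 = 0
      omega
    · change δ 1 = 0
      omega
  | zero => simp
  | add x y _ _ hx hy => rw [ContinuousMap.add_comp, add_mul, map_add, hx, hy, add_zero]
  | smul a x _ hx => rw [ContinuousMap.smul_comp, smul_mul_assoc, map_smul, hx, smul_zero]

lemma uniq {k : PD ℕ → ℂ} (hk : Integrable k (sig : Measure (PD ℕ)))
    (h : ∀ γ, ∫ x, mFourier γ x * k (e2 x) ∂mT = 0) : ∀ᵐ s ∂(sig : Measure (PD ℕ)), k s = 0 := by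
  have hk' : Integrable (fun x => k (e2 x)) mT := e2_emb.integrable_map_iff.1 hk
  rw [ae_sig]
  refine ae_zero_of_cont hk' fun φ => ?_
  let Λ : C(X, ℂ) →L[ℂ] ℂ := LinearMap.mkContinuous
    { toFun := fun φ => ∫ x, φ x * k (e2 x) ∂mT
      map_add' := fun φ ψ => by
        simp only [ContinuousMap.add_apply, add_mul]
        exact integral_add (cont_mul_int φ.continuous hk') (cont_mul_int ψ.continuous hk')
      map_smul' := fun c φ => by
        simp only [ContinuousMap.smul_apply, smul_eq_mul, mul_assoc, RingHom.id_apply]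
        exact integral_const_mul _ _ } (∫ x, ‖k (e2 x)‖ ∂mT) fun φ => by
    rw [mul_comm, ← integral_const_mul]
    refine norm_integral_le_of_norm_le (hk'.norm.const_mul _) (Eventually.of_forall fun x => ?_)
    rw [norm_mul]
    exact mul_le_mul_of_nonneg_right (φ.norm_coe_le_norm x) (norm_nonneg _)
  have h1 : φ ∈ closure (Submodule.span ℂ (Set.range (mFourier (d := Fin 2))) : Set C(X, ℂ)) := by
    rw [← Submodule.topologicalClosure_coe, span_mFourier_closure_eq_top]
    trivial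
  have h2 : Submodule.span ℂ (Set.range (mFourier (d := Fin 2))) ≤ LinearMap.ker (Λ : _ →ₗ[ℂ] ℂ) :=
    Submodule.span_le.2 (by rintro _ ⟨γ, rfl⟩; exact h γ)
  exact closure_minimal h2 Λ.isClosed_ker h1

abbrev As := WkA (Alg ℕ) sig

abbrev L := Lp ℂ ⊤ (sig : Measure (PD ℕ))

lemma wkA_annih (h : L) (hh : h ∈ As) (u : C(PD ℕ, ℂ))
    (hu : ∀ f ∈ Alg ℕ, ∫ x, f (e2 x) * u (e2 x) ∂mT = 0) :
    ∫ x, h (e2 x) * u (e2 x) ∂mT = 0 := by
  by_contra hne
  obtain ⟨f, hf, e1⟩ := hh 1 (fun _ => u) (fun _ => cint _ u.continuous) _ (norm_pos_iff.2 hne)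
  have := e1 0
  rw [split_int h f.continuous (cint _ u.continuous), int_sig, int_sig, hu f hf, sub_zero] at this
  exact lt_irrefl _ this

lemma wkA_mF (h : L) (hh : h ∈ As) (δ : Fin 2 → ℤ) (hδ : Pos δ) (h0 : δ ≠ 0) :
    ∫ x, h (e2 x) * mFourier δ x ∂mT = 0 := by
  obtain ⟨u, -, hu⟩ := lift_pos δ hδ
  simpa only [hu] using wkA_annih h hh u fun f hf => by simpa only [hu] using annih δ hδ h0 f hf

lemma L_int (h : L) : Integrable h (sig : Measure (PD ℕ)) := (Lp.memLp h).integrable le_top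

lemma H1 (h : L) (hh : h ∈ As) (hr : ∀ᵐ s ∂(sig : Measure (PD ℕ)), (h s).im = 0) :
    ∃ c : ℂ, ∀ᵐ s ∂(sig : Measure (PD ℕ)), h s = c := by
  set c := ∫ x, h (e2 x) ∂mT with hc
  refine ⟨c, (uniq ((L_int h).sub (integrable_const c)) fun γ => ?_).mono
    fun s hs => sub_eq_zero.1 hs⟩
  have hi : Integrable (fun x => h (e2 x)) mT := e2_emb.integrable_map_iff.1 (L_int h)
  simp only [Pi.sub_apply, mul_sub]
  rw [integral_sub (cont_mul_int (mFourier γ).continuous hi) (cint _ (by fun_prop)),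
    integral_mul_const]
  by_cases h0 : γ = 0
  · simp [h0, mFourier_zero, hc]
  · rw [mF_mean γ h0, zero_mul, sub_zero]
    obtain ⟨δ, h1, h2, rfl | rfl⟩ := lift_all γ h0
    · simpa only [mul_comm] using wkA_mF h hh _ h1 h2
    · have := congrArg conj (wkA_mF h hh _ h1 h2)
      rw [← integral_conj, map_zero] at this
      rw [← this]
      refine integral_congr_ae ?_
      filter_upwards [(ae_sig _).1 hr] with x hx
      rw [mFourier_neg, map_mul, Complex.conj_eq_iff_im.2 hx, mul_comm]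

def V : Submodule ℂ C(PD ℕ, ℂ) where
  carrier := {u | ∃ f ∈ Alg ℕ, ∃ g ∈ Alg ℕ, ∀ s, u s = f s + conj (g s)}
  zero_mem' := ⟨0, zero_mem _, 0, zero_mem _, by simp⟩
  add_mem' := by
    rintro a b ⟨f, hf, g, hg, h⟩ ⟨f', hf', g', hg', h'⟩
    refine ⟨f + f', add_mem hf hf', g + g', add_mem hg hg', fun s => ?_⟩
    simp only [ContinuousMap.add_apply, map_add, h, h']
    ring
  smul_mem' := by
    rintro c a ⟨f, hf, g, hg, h⟩
    refine ⟨c • f, (Alg ℕ).smul_mem hf _, conj c • g, (Alg ℕ).smul_mem hg _, fun s => ?_⟩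
    simp only [ContinuousMap.smul_apply, smul_eq_mul, map_mul, Complex.conj_conj, h]
    ring

lemma H2 : WkClosure (Alg ℕ) sig = Set.univ := by
  refine Set.eq_univ_of_forall fun h r k hk ε hε => ?_
  let T : C(PD ℕ, ℂ) →ₗ[ℂ] Fin r → ℂ :=
    { toFun := fun u j => ∫ s, u s * k j s ∂(sig : Measure (PD ℕ))
      map_add' := fun φ ψ => by
        funext j
        simp only [ContinuousMap.add_apply, add_mul]
        exact integral_add (cont_mul_int φ.continuous (hk j)) (cont_mul_int ψ.continuous (hk j))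
      map_smul' := fun c φ => by
        funext j
        simp only [ContinuousMap.smul_apply, smul_eq_mul, mul_assoc, RingHom.id_apply]
        exact integral_const_mul _ _ }
  have hmem : (fun j => ∫ s, h s * k j s ∂(sig : Measure (PD ℕ))) ∈ V.map T := by
    by_contra hn
    obtain ⟨φ, h1, h2⟩ := Submodule.exists_dual_map_eq_bot_of_notMem hn inferInstance
    set c : Fin r → ℂ := fun j => φ fun i => if j = i then 1 else 0 with hc
    set kk : PD ℕ → ℂ := fun s => ∑ j, k j s * c j with hkk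
    have hki : Integrable kk (sig : Measure (PD ℕ)) :=
      integrable_finsetSum _ fun j _ => (hk j).mul_const _
    have key : ∀ w : PD ℕ → ℂ, (∀ j, Integrable (fun s => w s * k j s) (sig : Measure (PD ℕ))) →
        φ (fun j => ∫ s, w s * k j s ∂(sig : Measure (PD ℕ))) =
          ∫ s, w s * kk s ∂(sig : Measure (PD ℕ)) := by
      intro w hw
      rw [LinearMap.pi_apply_eq_sum_univ]
      simp only [hkk, Finset.mul_sum, ← mul_assoc]
      rw [integral_finsetSum _ fun j _ => (hw j).mul_const _]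
      simp only [integral_mul_const, smul_eq_mul, hc]
    have hV : ∀ u ∈ V, ∫ x, u (e2 x) * kk (e2 x) ∂mT = 0 := by
      intro u hu
      rw [← int_sig fun s => u s * kk s, ← key u fun j => cont_mul_int u.continuous (hk j)]
      have : φ (T u) ∈ (V.map T).map φ := ⟨_, ⟨u, hu, rfl⟩, rfl⟩
      rw [h2] at this
      exact this
    have hz := uniq hki fun γ => by
      by_cases h0 : γ = 0
      · simpa [h0, mFourier_zero] using hV 1 ⟨1, one_mem _, 0, zero_mem _, by simp⟩
      · obtain ⟨δ, h1, -, rfl | rfl⟩ := lift_all γ h0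
        · obtain ⟨f, hf, e⟩ := lift_pos _ h1
          simpa only [e] using hV f ⟨f, hf, 0, zero_mem _, by simp⟩
        · obtain ⟨f, hf, e⟩ := lift_pos _ h1
          have := hV (star f) ⟨0, zero_mem _, f, hf, by simp⟩
          simpa only [ContinuousMap.star_apply, e, mFourier_neg, starRingEnd_apply] using this
    apply h1
    rw [key h fun j => top_mul_int h (hk j), integral_congr_ae (g := fun _ => 0)
      (hz.mono fun s hs => by simp only [hs, mul_zero]), integral_zero]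
  obtain ⟨u, ⟨f, hf, g, hg, hu⟩, e⟩ := hmem
  refine ⟨f, hf, g, hg, fun j => ?_⟩
  rw [split_int h (by fun_prop) (hk j), ← congrFun e j]
  simp only [← hu]
  change ‖T u j - T u j‖ < ε
  simpa using hε

def toL (f : C(PD ℕ, ℂ)) : L := ContinuousMap.toLp ⊤ (sig : Measure (PD ℕ)) ℂ f

lemma toL_ae (f : C(PD ℕ, ℂ)) : ∀ᵐ s ∂(sig : Measure (PD ℕ)), toL f s = f s :=
  ContinuousMap.coeFn_toLp _ _

lemma toL_mem (f : C(PD ℕ, ℂ)) (hf : f ∈ Alg ℕ) : toL f ∈ As := by
  intro r k hk ε hε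
  refine ⟨f, hf, fun j => ?_⟩
  rw [integral_congr_ae (g := fun _ => 0) ((toL_ae f).mono fun s hs => by simp [hs])]
  simpa using hε

lemma exists_mul (u : C(PD ℕ, ℂ)) (h : L) :
    ∃ h' : L, ∀ᵐ s ∂(sig : Measure (PD ℕ)), h' s = u s * h s := by
  have : MemLp (fun s => u s * h s) ⊤ (sig : Measure (PD ℕ)) :=
    (Lp.memLp h).mul' (memLp_top_of_bound u.continuous.aestronglyMeasurable ‖u‖
      (Eventually.of_forall u.norm_coe_le_norm))
  exact ⟨this.toLp _, this.coeFn_toLp⟩

lemma mul_mem_As (u : C(PD ℕ, ℂ)) (hu : u ∈ Alg ℕ) (h : L) (hh : h ∈ As) :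
    ∃ h' ∈ As, ∀ᵐ s ∂(sig : Measure (PD ℕ)), h' s = u s * h s := by
  obtain ⟨h', e⟩ := exists_mul u h
  refine ⟨h', fun r k hk ε hε => ?_, e⟩
  obtain ⟨f, hf, e'⟩ := hh r (fun j s => u s * k j s)
    (fun j => cont_mul_int u.continuous (hk j)) ε hε
  refine ⟨u * f, mul_mem hu hf, fun j => ?_⟩
  rw [integral_congr_ae (g := fun s => (h s - f s) * (u s * k j s))]
  · exact e' j
  · filter_upwards [e] with s hs
    rw [hs, ContinuousMap.mul_apply]
    ring

lemma poly_div (p : C(PD ℕ, ℂ)) (hp : p ∈ H28.UAlg.Poly ℕ) :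
    ∃ c : ℂ, ∃ q ∈ Alg ℕ, ∀ x, p (e2 x) = c + coord 0 (e2 x) * q (e2 x) := by
  induction hp using Algebra.adjoin_induction with
  | mem x hx =>
    obtain ⟨n, rfl⟩ := hx
    cases n with
    | zero => exact ⟨0, 1, one_mem _, by simp⟩
    | succ n =>
      refine ⟨0, coord (n + 2), coord_mem _, fun x => ?_⟩
      simp only [coord_e2, zero_add, ← mFourier_add]
      congr 2
      funext i
      fin_cases i <;> simp [gam]
  | algebraMap r => exact ⟨r, 0, zero_mem _, by simp⟩
  | add x y _ _ hx hy =>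
    obtain ⟨c, q, hq, e⟩ := hx
    obtain ⟨c', q', hq', e'⟩ := hy
    refine ⟨c + c', q + q', add_mem hq hq', fun x => ?_⟩
    simp only [ContinuousMap.add_apply, e, e']
    ring
  | mul x y _ _ hx hy =>
    obtain ⟨c, q, hq, e⟩ := hx
    obtain ⟨c', q', hq', e'⟩ := hy
    refine ⟨c * c', c • q' + c' • q + coord 0 * q * q', add_mem (add_mem ((Alg ℕ).smul_mem hq' _)
      ((Alg ℕ).smul_mem hq _)) (mul_mem (mul_mem (coord_mem _) hq) hq'), fun x => ?_⟩
    simp only [ContinuousMap.add_apply, ContinuousMap.mul_apply, ContinuousMap.smul_apply,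
      smul_eq_mul, e, e']
    ring

lemma w_conj (x : X) : coord 0 (e2 x) * conj (coord 0 (e2 x)) = 1 := by
  rw [coord_e2, ← mFourier_neg, ← mFourier_add, add_neg_cancel, mFourier_zero]
  rfl

lemma w_mean (q : C(PD ℕ, ℂ)) (hq : q ∈ Alg ℕ) : ∫ x, coord 0 (e2 x) * q (e2 x) ∂mT = 0 := by
  simpa only [coord_e2, mul_comm] using annih (gam 0) (by simp [Pos, gam])
    (fun h => by simpa [gam] using congrFun h 1) q hq

lemma div_As (h : L) (hh : h ∈ As) : ∃ c : ℂ, ∃ h' ∈ As,
    ∀ᵐ s ∂(sig : Measure (PD ℕ)), h s = c + coord 0 s * h' s := by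
  set c := ∫ s, h s ∂(sig : Measure (PD ℕ)) with hc
  set wb : C(PD ℕ, ℂ) := star (coord 0) with hwb
  have hw : ∀ᵐ s ∂(sig : Measure (PD ℕ)), coord 0 s * wb s = 1 :=
    (ae_sig _).2 (Eventually.of_forall w_conj)
  obtain ⟨h', e⟩ := exists_mul wb (h - toL (algebraMap ℂ _ c))
  have e' : ∀ᵐ s ∂(sig : Measure (PD ℕ)), h' s = wb s * (h s - c) := by
    filter_upwards [e, Lp.coeFn_sub h (toL (algebraMap ℂ _ c)), toL_ae (algebraMap ℂ _ c)]
      with s h1 h2 h3
    rw [h1, h2, Pi.sub_apply, h3]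
    simp
  refine ⟨c, h', fun r k hk ε hε => ?_, ?_⟩
  · set k' : Fin r → PD ℕ → ℂ := fun j s => wb s * k j s with hk'
    have hki : ∀ j, Integrable (k' j) (sig : Measure (PD ℕ)) :=
      fun j => cont_mul_int wb.continuous (hk j)
    set M := ∑ j, ∫ s, ‖k' j s‖ ∂(sig : Measure (PD ℕ)) with hM
    have hnn : ∀ j, 0 ≤ ∫ s, ‖k' j s‖ ∂(sig : Measure (PD ℕ)) :=
      fun j => integral_nonneg fun s => norm_nonneg _
    have hM0 : 0 ≤ M := Finset.sum_nonneg fun j _ => hnn j
    have hMj : ∀ j, ∫ s, ‖k' j s‖ ∂(sig : Measure (PD ℕ)) ≤ M :=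
      fun j => Finset.single_le_sum (fun j _ => hnn j) (Finset.mem_univ j)
    set δ := ε / (3 * M + 2) with hδ
    have hδ0 : 0 < δ := by positivity
    obtain ⟨f, hf, e1⟩ := hh (r + 1) (Fin.cons (fun _ => 1) k')
      (fun j => Fin.cases (integrable_const _) hki j) δ hδ0
    obtain ⟨p, hp, hd⟩ := Metric.mem_closure_iff.1 hf δ hδ0
    rw [dist_eq_norm] at hd
    obtain ⟨c', q, hq, e2'⟩ := poly_div p hp
    have hfp : ∀ w : PD ℕ → ℂ, Integrable w (sig : Measure (PD ℕ)) →
        ‖∫ s, (f s - p s) * w s ∂(sig : Measure (PD ℕ))‖ ≤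
          δ * ∫ s, ‖w s‖ ∂(sig : Measure (PD ℕ)) := by
      intro w hw
      rw [← integral_const_mul]
      refine norm_integral_le_of_norm_le (hw.norm.const_mul _) (Eventually.of_forall fun s => ?_)
      rw [norm_mul]
      exact mul_le_mul_of_nonneg_right (((f - p).norm_coe_le_norm s).trans hd.le) (norm_nonneg _)
    have hcc : ‖c' - c‖ ≤ 2 * δ := by
      have a1 := e1 0
      have a2 := hfp (fun _ => 1) (integrable_const _)
      simp only [Fin.cons_zero, mul_one, norm_one, integral_const, sig_univ, smul_eq_mul] at a1 a2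
      rw [integral_sub (L_int h) (cint _ f.continuous)] at a1
      rw [integral_sub (cint _ f.continuous) (cint _ p.continuous), int_sig p] at a2
      simp only [e2'] at a2
      rw [integral_add (integrable_const _) (cint _ (by fun_prop)), w_mean q hq] at a2
      simp only [integral_const, probReal_univ, one_smul, add_zero] at a2
      rw [norm_sub_rev]
      linarith [norm_sub_le_norm_sub_add_norm_sub c (∫ s, f s ∂(sig : Measure (PD ℕ))) c']
    refine ⟨q, hq, fun j => ?_⟩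
    have i1 : Integrable (fun s => (h s - f s) * k' j s) (sig : Measure (PD ℕ)) := by
      simp only [sub_mul]
      exact (top_mul_int h (hki j)).sub (cont_mul_int f.continuous (hki j))
    have i2 : Integrable (fun s => (f s - p s) * k' j s) (sig : Measure (PD ℕ)) :=
      cont_mul_int (by fun_prop) (hki j)
    have i12 : Integrable (fun s => (h s - f s) * k' j s + (f s - p s) * k' j s)
      (sig : Measure (PD ℕ)) := i1.add i2
    rw [integral_congr_ae (g := fun s => ((h s - f s) * k' j s + (f s - p s) * k' j s) +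
      (c' - c) * k' j s), integral_add i12 ((hki j).const_mul _), integral_add i1 i2,
      integral_const_mul]
    · have a1 : ‖∫ s, (h s - f s) * k' j s ∂(sig : Measure (PD ℕ))‖ < δ := e1 j.succ
      have a2 := (hfp _ (hki j)).trans (mul_le_mul_of_nonneg_left (hMj j) hδ0.le)
      have a3 : ‖(c' - c) * ∫ s, k' j s ∂(sig : Measure (PD ℕ))‖ ≤ 2 * δ * M := by
        rw [norm_mul]
        exact mul_le_mul hcc ((norm_integral_le_integral_norm _).trans (hMj j)) (norm_nonneg _)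
          (by positivity)
      have a4 : δ * (3 * M + 2) = ε := by rw [hδ]; field_simp
      refine ((norm_add_le _ _).trans (add_le_add (norm_add_le _ _) le_rfl)).trans_lt ?_
      nlinarith
    · filter_upwards [e', hw, (ae_sig fun s => p s = c' + coord 0 s * q s).2
        (Eventually.of_forall e2')] with s h1 h2 h3
      simp only [hk']
      rw [h1, h3]
      linear_combination (q s * k j s) * h2
  · filter_upwards [e', hw] with s h1 h2
    rw [h1]
    linear_combination (c - h s) * h2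

lemma not_iso : ¬ WkIso (Alg ℕ) sig := by
  rintro ⟨Φ, hb, hadd, hsm, hmul⟩
  have m1 := toL_mem 1 (one_mem _)
  have mc := fun n => toL_mem (coord n) (coord_mem n)
  have mk := fun c : ℂ => toL_mem _ ((Alg ℕ).algebraMap_mem c)
  have h1 : ∀ z, Φ (toL 1) z = 1 := by
    obtain ⟨a, ha, e⟩ := hb.surjOn (Hinf_const 1)
    have := hmul _ m1 a ha a ha ((toL_ae 1).mono fun s hs => by simp [hs])
    rw [e] at this
    intro z
    simpa using (this z).symm
  have hc : ∀ c : ℂ, ∀ z, Φ (toL (algebraMap ℂ _ c)) z = c := by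
    intro c z
    rw [hsm c _ m1 _ (mk c) ?_ z, h1, mul_one]
    filter_upwards [toL_ae 1, toL_ae (algebraMap ℂ _ c)] with s a1 a2
    rw [a1, a2]
    simp
  have hW : ∀ a ∈ As, ∃ b ∈ As, (∀ᵐ s ∂(sig : Measure (PD ℕ)), b s = coord 0 s * a s) ∧
      ∀ z, Φ b z = Φ (toL (coord 0)) z * Φ a z := by
    intro a ha
    obtain ⟨b, hb', e⟩ := mul_mem_As _ (coord_mem 0) a ha
    refine ⟨b, hb', e, hmul _ (mc 0) a ha b hb' ?_⟩
    filter_upwards [e, toL_ae (coord 0)] with s h1 h2
    rw [h1, h2]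
  have key := Hinf_contra (hb.mapsTo (mc 0)) (fun F hF => ?_) ?_
    (fun k => Φ (toL (coord (k + 1)))) (fun k => hb.mapsTo (mc _)) (fun k z => ?_)
  · have h2 := hb.injOn (mc 1) (mk 0) (key.trans (funext fun z => (hc 0 z).symm))
    have h3 : ∀ᵐ s ∂(sig : Measure (PD ℕ)), coord 1 s = 0 := by
      filter_upwards [toL_ae (coord 1), toL_ae (algebraMap ℂ _ 0)] with s a1 a2
      rw [← a1, h2, a2]
      simp
    obtain ⟨x, hx⟩ := ((ae_sig _).1 h3).exists
    have := mF_norm (gam 1) x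
    rw [← coord_e2, hx] at this
    simp at this
  · obtain ⟨a, ha, rfl⟩ := hb.surjOn hF
    obtain ⟨c, a', ha', e⟩ := div_As a ha
    obtain ⟨b, hb', e1, e2'⟩ := hW a' ha'
    refine ⟨c, Φ a', hb.mapsTo ha', fun z => ?_⟩
    rw [hadd _ (mk c) _ hb' _ ha ?_ z, hc, e2']
    filter_upwards [e, e1, toL_ae (algebraMap ℂ _ c)] with s a1 a2 a4
    rw [a4, a2, a1]
    simp
  · rintro ⟨F, hF, e⟩
    obtain ⟨a, ha, rfl⟩ := hb.surjOn hF
    obtain ⟨b, hb', e1, e2'⟩ := hW a ha
    have : b = toL 1 := hb.injOn hb' m1 (funext fun z => by rw [e2', h1, e])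
    have h2 := wkA_mF a ha (gam 0) (by simp [Pos, gam]) (fun h => by simpa [gam] using congrFun h 1)
    rw [integral_congr_ae (g := fun _ => 1)] at h2
    · simp at h2
    · filter_upwards [(ae_sig _).1 e1, (ae_sig _).1 (toL_ae 1)] with x a1 a2
      rw [this, a2] at a1
      rw [← coord_e2, mul_comm, ← a1]
      rfl
  · refine hmul _ (mc 0) _ (mc (k + 2)) _ (mc (k + 1)) ?_ z
    have hx : ∀ x, coord (k + 1) (e2 x) = coord 0 (e2 x) * coord (k + 2) (e2 x) := by
      intro x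
      simp only [coord_e2, ← mFourier_add]
      congr 2
      funext i
      fin_cases i <;> simp [gam]
    filter_upwards [toL_ae (coord 0), toL_ae (coord (k + 1)), toL_ae (coord (k + 2)),
      (ae_sig fun s => coord (k + 1) s = coord 0 s * coord (k + 2) s).2
        (Eventually.of_forall hx)] with s a1 a2 a3 a4
    rw [a1, a2, a3, a4]

lemma supp (x : X) : e2 x ∈ (sig : Measure (PD ℕ)).support := by
  rw [Measure.mem_support_iff_forall]
  intro U hU
  change 0 < mT.map e2 U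
  rw [e2_emb.map_apply]
  exact mT.measure_pos_of_mem_nhds (e2.continuous.continuousAt.preimage_mem_nhds hU)

theorem result :
    ∃ (S : Type) (_ : TopologicalSpace S) (_ : CompactSpace S) (_ : T2Space S)
      (_ : MeasurableSpace S) (_ : BorelSpace S) (A : Subalgebra ℂ C(S, ℂ)) (σ : FiniteMeasure S),
      Good A ∧ (σ : Measure S).support.Nontrivial ∧ RealConst A σ ∧
      WkClosure A σ = Set.univ ∧ ¬ WkIso A σ := by
  refine ⟨PD ℕ, inferInstance, inferInstance, inferInstance, inferInstance, inferInstance,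
    Alg ℕ, sig, good, ?_, H1, H2, not_iso⟩
  obtain ⟨x, hx⟩ := W_ae.exists
  refine ⟨_, supp 0, _, supp fun _ => x, fun h => hx ?_⟩
  have : (0 : T1) = x := congrFun (e2_inj h) 0
  simp [← this, W]

end Pool.Agent.Results.MP_ca8afd_an.NotHinf
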